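import Pool.Agent.Helper73.DC.St7

set_option autoImplicit false

namespace Pool.Agent.Helper82.DC

open Pool.Agent.Helper73.DC
open Finset
open scoped Classical

theorem step_inv {α : Type} {M : DPDA α} {q : M.Q} {u : List α} {Z : M.Γ} {s : List M.Γ} {c : M.Q × List α × List M.Γ}
    (h : M.Step (q, u, Z :: s) c) :
    (∃ (q1 : M.Q) (a : α) (u1 : List α) (γ : List M.Γ), u = a :: u1 ∧ M.tr q Z a = some (q1, γ) ∧ c = (q1, u1, γ ++ s)) ∨
    (∃ (q1 : M.Q) (γ : List M.Γ), M.ep q Z = some (q1, γ) ∧ c = (q1, u, γ ++ s)) := by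
  cases h with
  | rd _ q1 a u1 _ _ γ ht => exact Or.inl ⟨q1, a, u1, γ, rfl, ht, rfl⟩
  | ep _ q1 _ _ _ γ he => exact Or.inr ⟨q1, γ, he, rfl⟩

theorem step_nil {α : Type} {M : DPDA α} {q : M.Q} {u : List α} {c : M.Q × List α × List M.Γ}
    (h : M.Step (q, u, []) c) : False := by
  cases h

theorem split_run {α : Type} (M : DPDA α) (τ : List M.Γ) : ∀ (l : ℕ) (q : M.Q) (u : List α) (δ : List M.Γ)
    (q' : M.Q) (u' : List α) (s' : List M.Γ),
    M.Run l (q, u, δ ++ τ) (q', u', s') →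
    (∃ δ', s' = δ' ++ τ ∧ M.Run l (q, u, δ) (q', u', δ')) ∨
    (∃ (l1 l2 : ℕ) (q1 : M.Q) (u1 : List α), l1 + l2 = l ∧ M.Run l1 (q, u, δ) (q1, u1, []) ∧
      M.Run l2 (q1, u1, τ) (q', u', s')) := by
  intro l
  induction l with
  | zero =>
    intro q u δ q' u' s' h
    have h' : (q, u, δ ++ τ) = (q', u', s') := h
    simp only [Prod.mk.injEq] at h'
    obtain ⟨rfl, rfl, rfl⟩ := h'
    exact Or.inl ⟨δ, rfl, rfl⟩
  | succ l ih =>
    intro q u δ q' u' s' h
    cases δ with
    | nil => exact Or.inr ⟨0, l + 1, q, u, by omega, rfl, h⟩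
    | cons Z δ =>
      obtain ⟨c, hc, hr⟩ := h
      rw [List.cons_append] at hc
      rcases step_inv hc with ⟨q1, a, u1, γ, rfl, ht, rfl⟩ | ⟨q1, γ, he, rfl⟩
      · rw [← List.append_assoc] at hr
        rcases ih q1 u1 (γ ++ δ) q' u' s' hr with ⟨δ', h1, h2⟩ | ⟨l1, l2, q2, u2, h1, h2, h3⟩
        · exact Or.inl ⟨δ', h1, _, DPDA.Step.rd q q1 a u1 Z δ γ ht, h2⟩
        · exact Or.inr ⟨l1 + 1, l2, q2, u2, by omega, ⟨_, DPDA.Step.rd q q1 a u1 Z δ γ ht, h2⟩, h3⟩
      · rw [← List.append_assoc] at hr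
        rcases ih q1 u (γ ++ δ) q' u' s' hr with ⟨δ', h1, h2⟩ | ⟨l1, l2, q2, u2, h1, h2, h3⟩
        · exact Or.inl ⟨δ', h1, _, DPDA.Step.ep q q1 u Z δ γ he, h2⟩
        · exact Or.inr ⟨l1 + 1, l2, q2, u2, by omega, ⟨_, DPDA.Step.ep q q1 u Z δ γ he, h2⟩, h3⟩

theorem drop_cons {α : Type} {w : List α} {i : ℕ} {a : α} {u : List α} (h : w.drop i = a :: u) :
    w[i]? = some a ∧ u = w.drop (i + 1) ∧ i + 1 ≤ w.length := by
  have hlt : i < w.length := by
    by_contra hge
    rw [List.drop_of_length_le (by omega)] at h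
    exact absurd h (by simp)
  rw [List.drop_eq_getElem_cons hlt] at h
  simp only [List.cons.injEq] at h
  refine ⟨?_, h.2.symm, hlt⟩
  rw [List.getElem?_eq_getElem hlt, h.1]

theorem mD5 : StD3 → StD5 := by
  intro H3 α _ M T K num qn hD w l
  have H := H3 M T K num qn hD w
  set E : ℕ → ℕ → Prop := fun x v => ∃ m k, Ev (T.lf w) (T.cl w) (rsb T w) (T.wt w) x v m k with hE
  have Enode : ∀ x r1 r2, T.lf w x = 0 → E (T.cl w x) r1 → E (rsb T w x r1) r2 → E x r2 := by
    rintro x r1 r2 h0 ⟨m1, k1, h1⟩ ⟨m2, k2, h2⟩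
    exact ⟨_, _, Ev.node x r1 m1 k1 r2 m2 k2 h0 h1 h2⟩
  have Eleaf : ∀ x r, T.lf w x = r + 1 → E x r := fun x r h => ⟨_, _, Ev.leaf x r h⟩
  have Eac : E (T.ac w.length) 0 := Eleaf _ _ (H 0 (Nat.zero_le _)).2.2.2.2.2.2.1
  have F0 : ∀ (q : M.Q) (β : List M.Γ) (i : ℕ), i ≤ w.length → β.length ≤ K → (i = w.length ∧ M.acc q) →
      E (nde M num w.length q β i) 0 := fun q β i hi hβ ha => Eleaf _ _ ((H i hi).1 q β hβ ha.1 ha.2)
  have F1 : ∀ (q : M.Q) (i : ℕ), i ≤ w.length → ¬ (i = w.length ∧ M.acc q) →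
      E (nde M num w.length q [] i) (qn q * (w.length + 1) + i + 1) := fun q i hi ha => Eleaf _ _ ((H i hi).2.1 q ha)
  have F2 : ∀ (q : M.Q) (Z : M.Γ) (q' : M.Q) (γ : List M.Γ) (i v : ℕ), i ≤ w.length → ¬ (i = w.length ∧ M.acc q) →
      M.ep q Z = some (q', γ) → E (nde M num w.length q' γ i) v → E (nde M num w.length q [Z] i) v := by
    intro q Z q' γ i v hi ha he hv
    obtain ⟨h1, h2, h3, -, -⟩ := (H i hi).2.2.1 q Z q' γ 0 ha he
    refine Enode _ 0 v h1 ?_ ?_
    · rw [h2]; exact Eac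
    · rw [h3]; exact hv
  have F3 : ∀ (q : M.Q) (Z : M.Γ) (q' : M.Q) (γ : List M.Γ) (a : α) (i v : ℕ), i ≤ w.length → w[i]? = some a →
      M.tr q Z a = some (q', γ) → E (nde M num w.length q' γ (i + 1)) v → E (nde M num w.length q [Z] i) v := by
    intro q Z q' γ a i v hi ha he hv
    obtain ⟨h1, h2, h3, -⟩ := (H i hi).2.2.2.1 q Z q' γ a ha he
    refine Enode _ 0 v h1 ?_ ?_
    · rw [h2]; exact Eac
    · rw [h3]; exact hv
  have F4 : ∀ (q : M.Q) (Z Y : M.Γ) (β : List M.Γ) (i : ℕ), i ≤ w.length → (Z :: Y :: β).length ≤ K →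
      ¬ (i = w.length ∧ M.acc q) → E (nde M num w.length q [Z] i) 0 → E (nde M num w.length q (Z :: Y :: β) i) 0 := by
    intro q Z Y β i hi hβ ha h0
    obtain ⟨h1, h2, -, h4, -⟩ := (H i hi).2.2.2.2.2.1 q Z Y β hβ ha
    refine Enode _ 0 0 h1 ?_ ?_
    · rw [h2]; exact h0
    · rw [h4]; exact Eac
  have F5 : ∀ (q : M.Q) (Z Y : M.Γ) (β : List M.Γ) (i : ℕ) (q' : M.Q) (j v : ℕ), i ≤ w.length → (Z :: Y :: β).length ≤ K →
      ¬ (i = w.length ∧ M.acc q) → j ≤ w.length → E (nde M num w.length q [Z] i) (qn q' * (w.length + 1) + j + 1) →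
      E (nde M num w.length q' (Y :: β) j) v → E (nde M num w.length q (Z :: Y :: β) i) v := by
    intro q Z Y β i q' j v hi hβ ha hj h0 hv
    obtain ⟨h1, h2, -, -, h5⟩ := (H i hi).2.2.2.2.2.1 q Z Y β hβ ha
    refine Enode _ (qn q' * (w.length + 1) + j + 1) v h1 ?_ ?_
    · rw [h2]; exact h0
    · rw [h5 q' j hj]; exact hv
  induction l using Nat.strong_induction_on with
  | _ l hl =>
    -- stack words of length one
    have S1 : ∀ (q : M.Q) (Z : M.Γ) (i : ℕ), i ≤ w.length →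
        (∀ (q' : M.Q) (s' : List M.Γ), M.acc q' → M.Run l (q, w.drop i, [Z]) (q', [], s') →
          E (nde M num w.length q [Z] i) 0) ∧
        (∀ (q' : M.Q) (u' : List α), M.Run l (q, w.drop i, [Z]) (q', u', []) →
          E (nde M num w.length q [Z] i) 0 ∨
          ∃ j m k, j ≤ w.length ∧ u' = w.drop j ∧
            Ev (T.lf w) (T.cl w) (rsb T w) (T.wt w) (nde M num w.length q [Z] i) (qn q' * (w.length + 1) + j + 1) m k) := by
      intro q Z i hi
      by_cases ha : i = w.length ∧ M.acc q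
      · have h0 := F0 q [Z] i hi (by simpa using hD.hK) ha
        exact ⟨fun _ _ _ _ => h0, fun _ _ _ => Or.inl h0⟩
      · cases l with
        | zero =>
          constructor
          · intro q' s' hacc hr
            have h' : (q, w.drop i, [Z]) = (q', [], s') := hr
            simp only [Prod.mk.injEq, List.drop_eq_nil_iff] at h'
            obtain ⟨rfl, h2, -⟩ := h'
            exact absurd ⟨by omega, hacc⟩ ha
          · intro q' u' hr
            have h' : (q, w.drop i, [Z]) = (q', u', []) := hr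
            simp at h'
        | succ l =>
          have key : ∀ (q' : M.Q) (u' : List α) (s' : List M.Γ), M.Run (l + 1) (q, w.drop i, [Z]) (q', u', s') →
              ∃ (q1 : M.Q) (γ : List M.Γ) (i1 : ℕ), γ.length ≤ K ∧ i1 ≤ w.length ∧ M.Run l (q1, w.drop i1, γ) (q', u', s') ∧
                ∀ v, E (nde M num w.length q1 γ i1) v → E (nde M num w.length q [Z] i) v := by
            intro q' u' s' hr
            obtain ⟨c, hc, hr⟩ := hr
            rcases step_inv hc with ⟨q1, a, u1, γ, hu, ht, rfl⟩ | ⟨q1, γ, he, rfl⟩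
            · obtain ⟨e1, e2, e3⟩ := drop_cons hu
              rw [List.append_nil, e2] at hr
              exact ⟨q1, γ, i + 1, hD.hKt q Z a q1 γ ht, e3, hr, fun v hv => F3 q Z q1 γ a i v hi e1 ht hv⟩
            · rw [List.append_nil] at hr
              exact ⟨q1, γ, i, hD.hKe q Z q1 γ he, hi, hr, fun v hv => F2 q Z q1 γ i v hi ha he hv⟩
          constructor
          · intro q' s' hacc hr
            obtain ⟨q1, γ, i1, g1, g2, g3, g4⟩ := key _ _ _ hr
            exact g4 _ ((hl l (by omega) q1 γ i1 g1 g2).1 q' s' hacc g3)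
          · intro q' u' hr
            obtain ⟨q1, γ, i1, g1, g2, g3, g4⟩ := key _ _ _ hr
            rcases (hl l (by omega) q1 γ i1 g1 g2).2 q' u' g3 with h | ⟨j, m, k, h1, h2, h3⟩
            · exact Or.inl (g4 _ h)
            · obtain ⟨m', k', h4⟩ := g4 _ ⟨m, k, h3⟩
              exact Or.inr ⟨j, m', k', h1, h2, h4⟩
    intro q β i hβ hi
    change (∀ (q' : M.Q) (s' : List M.Γ), M.acc q' → M.Run l (q, w.drop i, β) (q', [], s') →
          E (nde M num w.length q β i) 0) ∧
        (∀ (q' : M.Q) (u' : List α), M.Run l (q, w.drop i, β) (q', u', []) →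
          E (nde M num w.length q β i) 0 ∨
          ∃ j m k, j ≤ w.length ∧ u' = w.drop j ∧
            Ev (T.lf w) (T.cl w) (rsb T w) (T.wt w) (nde M num w.length q β i) (qn q' * (w.length + 1) + j + 1) m k)
    by_cases ha : i = w.length ∧ M.acc q
    · have h0 := F0 q β i hi hβ ha
      exact ⟨fun _ _ _ _ => h0, fun _ _ _ => Or.inl h0⟩
    match β, hβ with
    | [], hβ =>
      cases l with
      | zero =>
        constructor
        · intro q' s' hacc hr
          have h' : (q, w.drop i, ([] : List M.Γ)) = (q', [], s') := hr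
          simp only [Prod.mk.injEq, List.drop_eq_nil_iff] at h'
          obtain ⟨rfl, h2, -⟩ := h'
          exact absurd ⟨by omega, hacc⟩ ha
        · intro q' u' hr
          have h' : (q, w.drop i, ([] : List M.Γ)) = (q', u', []) := hr
          simp only [Prod.mk.injEq] at h'
          obtain ⟨rfl, rfl, -⟩ := h'
          obtain ⟨m, k, h⟩ := F1 q i hi ha
          exact Or.inr ⟨i, m, k, hi, rfl, h⟩
      | succ l =>
        constructor
        · intro q' s' hacc hr
          obtain ⟨c, hc, -⟩ := hr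
          exact (step_nil hc).elim
        · intro q' u' hr
          obtain ⟨c, hc, -⟩ := hr
          exact (step_nil hc).elim
    | [Z], hβ => exact S1 q Z i hi
    | Z :: Y :: β', hβ =>
      have hY : (Y :: β').length ≤ K := by
        simp only [List.length_cons] at hβ ⊢
        omega
      have hZ : ([Z] : List M.Γ).length ≤ K := by simpa using hD.hK
      have key : ∀ (q' : M.Q) (u' : List α) (s' : List M.Γ), M.Run l (q, w.drop i, Z :: Y :: β') (q', u', s') →
          E (nde M num w.length q (Z :: Y :: β') i) 0 ∨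
          (∃ δ', s' = δ' ++ (Y :: β') ∧ M.Run l (q, w.drop i, [Z]) (q', u', δ')) ∨
          (∃ (l2 : ℕ) (q1 : M.Q) (j : ℕ), l2 < l ∧ j ≤ w.length ∧ M.Run l2 (q1, w.drop j, Y :: β') (q', u', s') ∧
            ∀ v, E (nde M num w.length q1 (Y :: β') j) v → E (nde M num w.length q (Z :: Y :: β') i) v) := by
        intro q' u' s' hr
        have hr' : M.Run l (q, w.drop i, [Z] ++ (Y :: β')) (q', u', s') := hr
        rcases split_run M (Y :: β') l q (w.drop i) [Z] q' u' s' hr' with ⟨δ', h1, h2⟩ | ⟨l1, l2, q1, u1, h1, h2, h3⟩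
        · exact Or.inr (Or.inl ⟨δ', h1, h2⟩)
        · have hl1 : l1 ≠ 0 := by
            rintro rfl
            have h' : (q, w.drop i, [Z]) = (q1, u1, []) := h2
            simp at h'
          have S2 : E (nde M num w.length q [Z] i) 0 ∨
              ∃ j m k, j ≤ w.length ∧ u1 = w.drop j ∧
                Ev (T.lf w) (T.cl w) (rsb T w) (T.wt w) (nde M num w.length q [Z] i) (qn q1 * (w.length + 1) + j + 1) m k := by
            rcases Nat.lt_or_ge l1 l with hlt | hge
            · exact (hl l1 hlt q [Z] i hZ hi).2 q1 u1 h2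
            · obtain rfl : l1 = l := by omega
              exact (S1 q Z i hi).2 q1 u1 h2
          rcases S2 with h | ⟨j, m, k, g1, g2, g3⟩
          · exact Or.inl (F4 q Z Y β' i hi hβ ha h)
          · rw [g2] at h3
            exact Or.inr (Or.inr ⟨l2, q1, j, by omega, g1, h3, fun v hv => F5 q Z Y β' i q1 j v hi hβ ha g1 ⟨m, k, g3⟩ hv⟩)
      constructor
      · intro q' s' hacc hr
        rcases key q' [] s' hr with h | ⟨δ', h1, h2⟩ | ⟨l2, q1, j, h1, h2, h3, h4⟩
        · exact h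
        · exact F4 q Z Y β' i hi hβ ha ((S1 q Z i hi).1 q' δ' hacc h2)
        · exact h4 0 ((hl l2 h1 q1 (Y :: β') j hY h2).1 q' s' hacc h3)
      · intro q' u' hr
        rcases key q' u' [] hr with h | ⟨δ', h1, h2⟩ | ⟨l2, q1, j, h1, h2, h3, h4⟩
        · exact Or.inl h
        · simp at h1
        · rcases (hl l2 h1 q1 (Y :: β') j hY h2).2 q' u' h3 with h | ⟨j', m, k, g1, g2, g3⟩
          · exact Or.inl (h4 0 h)
          · obtain ⟨m', k', g4⟩ := h4 _ ⟨m, k, g3⟩
            exact Or.inr ⟨j', m', k', g1, g2, g4⟩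

end Pool.Agent.Helper82.DC
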