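import Pool.Agent.Helper73.DC.St7

set_option autoImplicit false

namespace Pool.Agent.Helper82.DC

open Pool.Agent.Helper73.DC
open Finset
open scoped Classical

theorem lett_zero {α : Type} [Fintype α] (w : List α) (i : ℕ) (hi : i ≤ w.length) : lett w i = 0 ↔ i = w.length := by
  unfold lett
  rcases Nat.lt_or_ge i w.length with h | h
  · rw [List.getElem?_eq_getElem h]
    simp only
    omega
  · rw [List.getElem?_eq_none h]
    exact ⟨fun _ => le_antisymm hi h, fun _ => rfl⟩

/-- The value of a node from the result of an ε-computation. -/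
def vl {Q : Type} (qn : Q → ℕ) (n i : ℕ) : Option Q → ℕ
  | none => 0
  | some q => qn q * (n + 1) + i + 1

theorem mD6 : StD3 → StD6 := by
  intro H3 α _ M T K num qn hD w
  have H := H3 M T K num qn hD w
  set E : ℕ → ℕ → Prop := fun x v => ∃ m k, Ev (T.lf w) (T.cl w) (rsb T w) (T.wt w) x v m k with hE
  have Enode : ∀ x r1 r2, T.lf w x = 0 → E (T.cl w x) r1 → E (rsb T w x r1) r2 → E x r2 := by
    rintro x r1 r2 h0 ⟨m1, k1, h1⟩ ⟨m2, k2, h2⟩
    exact ⟨_, _, Ev.node x r1 m1 k1 r2 m2 k2 h0 h1 h2⟩
  have Eleaf : ∀ x r, T.lf w x = r + 1 → E x r := fun x r h => ⟨_, _, Ev.leaf x r h⟩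
  have lfac : T.lf w (T.ac w.length) = 1 := (H 0 (Nat.zero_le _)).2.2.2.2.2.2.1
  have big : ∀ x, T.ac w.length < x → T.lf w x = 0 ∧ T.wt w x = 1 := (H 0 (Nat.zero_le _)).2.2.2.2.2.2.2.2
  have Eac : E (T.ac w.length) 0 := Eleaf _ _ lfac
  have F0 : ∀ (q : M.Q) (β : List M.Γ) (i : ℕ), i ≤ w.length → β.length ≤ K → (i = w.length ∧ M.acc q) →
      E (nde M num w.length q β i) 0 := fun q β i hi hβ ha => Eleaf _ _ ((H i hi).1 q β hβ ha.1 ha.2)
  have F1 : ∀ (q : M.Q) (i : ℕ), i ≤ w.length → ¬ (i = w.length ∧ M.acc q) →
      E (nde M num w.length q [] i) (qn q * (w.length + 1) + i + 1) := fun q i hi ha => Eleaf _ _ ((H i hi).2.1 q ha)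
  have F2 : ∀ (q : M.Q) (Z : M.Γ) (q' : M.Q) (γ : List M.Γ) (i v : ℕ), i ≤ w.length → ¬ (i = w.length ∧ M.acc q) →
      M.ep q Z = some (q', γ) → E (nde M num w.length q' γ i) v → E (nde M num w.length q [Z] i) v := by
    intro q Z q' γ i v hi ha he hv
    obtain ⟨h1, h2, h3, -, -⟩ := (H i hi).2.2.1 q Z q' γ 0 ha he
    refine Enode _ 0 v h1 ?_ ?_
    · rw [h2]; exact Eac
    · rw [h3]; exact hv
  have F4 : ∀ (q : M.Q) (Z Y : M.Γ) (β : List M.Γ) (i : ℕ), i ≤ w.length → (Z :: Y :: β).length ≤ K →
      ¬ (i = w.length ∧ M.acc q) → E (nde M num w.length q [Z] i) 0 → E (nde M num w.length q (Z :: Y :: β) i) 0 := by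
    intro q Z Y β i hi hβ ha h0
    obtain ⟨h1, h2, -, h4, -⟩ := (H i hi).2.2.2.2.2.1 q Z Y β hβ ha
    refine Enode _ 0 0 h1 ?_ ?_
    · rw [h2]; exact h0
    · rw [h4]; exact Eac
  have F5 : ∀ (q : M.Q) (Z Y : M.Γ) (β : List M.Γ) (i : ℕ) (q' : M.Q) (j v : ℕ), i ≤ w.length → (Z :: Y :: β).length ≤ K →
      ¬ (i = w.length ∧ M.acc q) → j ≤ w.length → E (nde M num w.length q [Z] i) (qn q' * (w.length + 1) + j + 1) →
      E (nde M num w.length q' (Y :: β) j) v → E (nde M num w.length q (Z :: Y :: β) i) v := by
    intro q Z Y β i q' j v hi hβ ha hj h0 hv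
    obtain ⟨h1, h2, -, -, h5⟩ := (H i hi).2.2.2.2.2.1 q Z Y β hβ ha
    refine Enode _ (qn q' * (w.length + 1) + j + 1) v h1 ?_ ?_
    · rw [h2]; exact h0
    · rw [h5 q' j hj]; exact hv
  have hZ : ∀ Z : M.Γ, ([Z] : List M.Γ).length ≤ K := fun Z => by simpa using hD.hK
  -- decoding
  have dec : ∀ x, x < T.ac w.length → x % (w.length + 1) ≤ w.length ∧
      ((T.tk (x / (w.length + 1)) (lett w (x % (w.length + 1))) = 6 ∧
        T.tb (x / (w.length + 1)) (lett w (x % (w.length + 1))) = 0) ∨
      ∃ (q : M.Q) (β : List M.Γ), β.length ≤ K ∧ num q β = x / (w.length + 1) ∧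
        x = nde M num w.length q β (x % (w.length + 1))) := by
    intro x hx
    have hi : x % (w.length + 1) ≤ w.length := Nat.le_of_lt_succ (Nat.mod_lt _ (Nat.succ_pos _))
    refine ⟨hi, ?_⟩
    by_cases hv : ∀ q β, β.length ≤ K → num q β ≠ x / (w.length + 1)
    · exact Or.inl (hD.kinv _ _ hv)
    · push Not at hv
      obtain ⟨q, β, h1, h2⟩ := hv
      refine Or.inr ⟨q, β, h1, h2, ?_⟩
      unfold nde
      rw [h2]
      exact (Nat.div_add_mod' x (w.length + 1)).symm
  have f0ne : ∀ x, x < T.ac w.length → T.tb (x / (w.length + 1)) (lett w (x % (w.length + 1))) ≠ 0 → T.f0 w x ≠ 0 := by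
    intro x hx hb
    unfold Tab.f0
    rw [if_pos hx, if_neg hb]
    split_ifs
    · exact one_ne_zero
    · omega
  have f0ac : T.f0 w (T.ac w.length) = 1 := by
    unfold Tab.f0
    rw [if_neg (lt_irrefl _), if_pos rfl]
  have epr : ∀ i, i ≤ w.length → (lett w i = 0) = (i = w.length) := fun i hi => propext (lett_zero w i hi)
  -- (1)
  have P1 : ∀ x, T.lf w x ≠ 0 → T.f0 w x ≠ 0 := by
    intro x hx
    rcases lt_trichotomy x (T.ac w.length) with hlt | heq | hgt
    · apply f0ne x hlt
      have hk : T.kd w x = T.tk (x / (w.length + 1)) (lett w (x % (w.length + 1))) := by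
        unfold Tab.kd
        rw [if_pos hlt]
      have hk01 : T.tk (x / (w.length + 1)) (lett w (x % (w.length + 1))) = 0 ∨
          T.tk (x / (w.length + 1)) (lett w (x % (w.length + 1))) = 1 := by
        rw [← hk]
        unfold Tab.lf at hx
        by_contra hcon
        push Not at hcon
        rw [if_neg hcon.1, if_neg hcon.2] at hx
        exact hx rfl
      obtain ⟨hi, hd⟩ := dec x hlt
      rcases hd with ⟨h6, -⟩ | ⟨q, β, hβ, hn, -⟩
      · omega
      · rw [← hn] at hk01 ⊢
        intro h0
        have hno := (hD.kb0 q β _ hβ).1 h0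
        by_cases ha : lett w (x % (w.length + 1)) = 0 ∧ M.acc q
        · exact hno none (EpR.acc q β ha.1 ha.2)
        · match β, hβ with
          | [], hβ => exact hno (some q) (EpR.nil q ha)
          | [Z], hβ =>
            cases he : M.ep q Z with
            | some p =>
              have := (hD.kep q Z p.1 p.2 _ ha he).1
              omega
            | none =>
              by_cases ht : ∀ a, lett w (x % (w.length + 1)) = cd a + 1 → M.tr q Z a = none
              · have := hD.kst q Z _ ha he ht
                omega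
              · push Not at ht
                obtain ⟨a, h1, h2⟩ := ht
                cases htr : M.tr q Z a with
                | none => exact h2 htr
                | some p =>
                  have := (hD.ktr q Z p.1 p.2 a htr).1
                  rw [h1] at hk01
                  omega
          | Z :: Y :: β', hβ =>
            have := (hD.ksq q Z Y β' _ hβ ha).1
            omega
    · rw [heq, f0ac]
      exact one_ne_zero
    · exact absurd (big x hgt).1 hx
  -- EpR gives derivations
  have C2 : ∀ (i : ℕ), i ≤ w.length → ∀ (q : M.Q) (β : List M.Γ) (ρ : Option M.Q), EpR M (i = w.length) q β ρ →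
      β.length ≤ K → E (nde M num w.length q β i) (vl qn w.length i ρ) := by
    intro i hi q β ρ h
    induction h with
    | acc q β h1 h2 => exact fun hβ => F0 q β i hi hβ ⟨h1, h2⟩
    | nil q ha => exact fun _ => F1 q i hi ha
    | mv q q' Z γ r ha he _ ih => exact fun _ => F2 q Z q' γ i _ hi ha he (ih (hD.hKe q Z q' γ he))
    | sq q q' Z Y β r ha _ _ ih1 ih2 =>
      intro hβ
      exact F5 q Z Y β i q' i _ hi hβ ha hi (ih1 (hZ Z)) (ih2 (by simp only [List.length_cons] at hβ ⊢; omega))
    | sqa q Z Y β ha _ ih1 => exact fun hβ => F4 q Z Y β i hi hβ ha (ih1 (hZ Z))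
  -- derivations of measure 0 give EpR
  have C3 : ∀ (x r m k : ℕ), Ev (T.lf w) (T.cl w) (rsb T w) (T.wt w) x r m k → m = 0 →
      (x = T.ac w.length → r = 0) ∧
      ∀ (q : M.Q) (β : List M.Γ) (i : ℕ), β.length ≤ K → i ≤ w.length → x = nde M num w.length q β i →
        ∃ ρ, EpR M (i = w.length) q β ρ ∧ r = vl qn w.length i ρ := by
    intro x r m k h
    induction h with
    | leaf x r hl =>
      intro hm
      constructor
      · rintro rfl
        rw [lfac] at hl
        omega
      · rintro q β i hβ hi rfl
        by_cases ha : i = w.length ∧ M.acc q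
        · have := (H i hi).1 q β hβ ha.1 ha.2
          exact ⟨none, EpR.acc q β ha.1 ha.2, by simp only [vl]; omega⟩
        · match β, hβ with
          | [], hβ =>
            have := (H i hi).2.1 q ha
            exact ⟨some q, EpR.nil q ha, by simp only [vl]; omega⟩
          | [Z], hβ =>
            exfalso
            cases he : M.ep q Z with
            | some p =>
              have := ((H i hi).2.2.1 q Z p.1 p.2 0 ha he).1
              omega
            | none =>
              by_cases ht : ∀ a, w[i]? = some a → M.tr q Z a = none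
              · have := ((H i hi).2.2.2.2.1 q Z ha he ht).1
                omega
              · push Not at ht
                obtain ⟨a, h1, h2⟩ := ht
                cases htr : M.tr q Z a with
                | none => exact h2 htr
                | some p =>
                  have := ((H i hi).2.2.2.1 q Z p.1 p.2 a h1 htr).1
                  omega
          | Z :: Y :: β', hβ =>
            exfalso
            have := ((H i hi).2.2.2.2.2.1 q Z Y β' hβ ha).1
            omega
    | node x r1 m1 n1 r2 m2 n2 h0 he1 he2 ih1 ih2 =>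
      intro hm
      obtain ⟨hw0, hm1, hm2⟩ : T.wt w x = 0 ∧ m1 = 0 ∧ m2 = 0 := ⟨by omega, by omega, by omega⟩
      obtain ⟨i1a, i1b⟩ := ih1 hm1
      obtain ⟨i2a, i2b⟩ := ih2 hm2
      constructor
      · rintro rfl
        rw [lfac] at h0
        omega
      · rintro q β i hβ hi rfl
        by_cases ha : i = w.length ∧ M.acc q
        · have := (H i hi).1 q β hβ ha.1 ha.2
          omega
        · match β, hβ with
          | [], hβ =>
            have := (H i hi).2.1 q ha
            omega
          | [Z], hβ =>
            cases he : M.ep q Z with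
            | some p =>
              obtain ⟨-, g2, g3, -, -⟩ := (H i hi).2.2.1 q Z p.1 p.2 0 ha he
              have hr1 : r1 = 0 := i1a g2
              subst hr1
              obtain ⟨ρ, h1, h2⟩ := i2b p.1 p.2 i (hD.hKe q Z p.1 p.2 he) hi g3
              exact ⟨ρ, EpR.mv q p.1 Z p.2 ρ ha he h1, h2⟩
            | none =>
              exfalso
              by_cases ht : ∀ a, w[i]? = some a → M.tr q Z a = none
              · have g2 := ((H i hi).2.2.2.2.1 q Z ha he ht).2
                obtain ⟨ρ, h1, -⟩ := i1b q [Z] i hβ hi g2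
                cases h1 with
                | acc _ _ b1 b2 => exact ha ⟨b1, b2⟩
                | mv _ q' _ γ _ _ he' _ =>
                  rw [he] at he'
                  exact absurd he' (by simp)
              · push Not at ht
                obtain ⟨a, h1, h2⟩ := ht
                cases htr : M.tr q Z a with
                | none => exact h2 htr
                | some p =>
                  have := ((H i hi).2.2.2.1 q Z p.1 p.2 a h1 htr).2.2.2
                  omega
          | Z :: Y :: β', hβ =>
            obtain ⟨-, g2, -, g4, g5⟩ := (H i hi).2.2.2.2.2.1 q Z Y β' hβ ha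
            obtain ⟨ρ1, h1, h2⟩ := i1b q [Z] i (hZ Z) hi g2
            cases ρ1 with
            | none =>
              have hr1 : r1 = 0 := h2
              subst hr1
              exact ⟨none, EpR.sqa q Z Y β' ha h1, i2a g4⟩
            | some q' =>
              have hr1 : r1 = qn q' * (w.length + 1) + i + 1 := h2
              subst hr1
              obtain ⟨ρ2, h3, h4⟩ := i2b q' (Y :: β') i (by simp only [List.length_cons] at hβ ⊢; omega) hi (g5 q' i hi)
              exact ⟨ρ2, EpR.sq q q' Z Y β' ρ2 ha h1 h3, h4⟩
  refine ⟨P1, ?_, ?_⟩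
  · intro x r hf
    change E x r
    rcases lt_trichotomy x (T.ac w.length) with hlt | heq | hgt
    · obtain ⟨hi, hd⟩ := dec x hlt
      have hb : T.tb (x / (w.length + 1)) (lett w (x % (w.length + 1))) ≠ 0 := by
        intro hb
        unfold Tab.f0 at hf
        rw [if_pos hlt, if_pos hb] at hf
        omega
      rcases hd with ⟨-, h0⟩ | ⟨q, β, hβ, hn, hx⟩
      · exact absurd h0 hb
      · have hb' : ¬ T.tb (num q β) (lett w (x % (w.length + 1))) = 0 := by rw [hn]; exact hb
        rw [hD.kb0 q β _ hβ] at hb'
        push Not at hb'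
        obtain ⟨ρ, hρ⟩ := hb'
        have hρ' := hρ
        rw [epr _ hi] at hρ'
        have hE1 := C2 _ hi q β ρ hρ' hβ
        rw [← hx] at hE1
        cases ρ with
        | none =>
          have h1 := (hD.kb1 q β _ hβ).2 hρ
          rw [hn] at h1
          unfold Tab.f0 at hf
          rw [if_pos hlt, if_neg hb, if_pos h1] at hf
          have hr : r = 0 := by omega
          rw [hr]
          exact hE1
        | some q' =>
          have h1 := (hD.kb2 q β _ q' hβ).2 hρ
          rw [hn] at h1
          unfold Tab.f0 at hf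
          rw [if_pos hlt, if_neg hb, if_neg (by omega), h1, Nat.add_sub_cancel] at hf
          have hr : r = qn q' * (w.length + 1) + x % (w.length + 1) + 1 := by omega
          rw [hr]
          exact hE1
    · rw [heq, f0ac] at hf
      have hr : r = 0 := by omega
      rw [hr, heq]
      exact Eac
    · unfold Tab.f0 at hf
      rw [if_neg (by omega), if_neg (by omega)] at hf
      omega
  · intro x r k hev
    have hw : T.wt w x = 0 := by
      have gen : ∀ x r m k, Ev (T.lf w) (T.cl w) (rsb T w) (T.wt w) x r m k → m = 0 → T.wt w x = 0 := by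
        intro x r m k h hm
        cases h with
        | leaf _ _ _ => exact hm
        | node _ r1 m1 n1 r2 m2 n2 h0 he1 he2 => omega
      exact gen x r 0 k hev rfl
    rcases lt_trichotomy x (T.ac w.length) with hlt | heq | hgt
    · obtain ⟨hi, hd⟩ := dec x hlt
      apply f0ne x hlt
      rcases hd with ⟨h6, -⟩ | ⟨q, β, hβ, hn, hx⟩
      · exfalso
        unfold Tab.wt at hw
        have hk : T.kd w x = 6 := by
          unfold Tab.kd
          rw [if_pos hlt, h6]
        rw [if_pos (Or.inr hk)] at hw
        omega
      · rw [← hn]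
        intro h0
        have hno := (hD.kb0 q β _ hβ).1 h0
        obtain ⟨ρ, h1, -⟩ := (C3 x r 0 k hev rfl).2 q β _ hβ hi hx
        rw [← epr _ hi] at h1
        exact hno ρ h1
    · rw [heq, f0ac]
      exact one_ne_zero
    · have := (big x hgt).2
      omega

end Pool.Agent.Helper82.DC
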