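import Pool.Agent.Helper73.DC.St3

/-! Project DC (MP_26f0da_lc), module F7: bound for the number of steps. -/

set_option autoImplicit false

namespace Pool.Agent.Helper82.DC

open Pool.Agent.Helper73.DC
open Finset
open scoped Classical

theorem F7_sz {α : Type} (c : Cmd α) : 1 ≤ sz c := by
  induction c with
  | asg i F => exact le_rfl
  | glb F => exact le_rfl
  | seq c d hc hd => exact le_trans hc (Nat.le_add_right _ _)
  | rep n c hc => exact hc
  | call i j => exact (by norm_num : (1 : ℕ) ≤ 3)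

theorem F7_tm {α : Type} (w : List α) (p : ℕ → ℕ) (X t : ℕ) (hX : 1 ≤ X) (c : Cmd α)
    (h : c.rle w p X) : tm w p t c ≤ sz c * X ^ dpt c * (t + 2) := by
  induction c with
  | asg i F => simp [tm, sz, dpt]
  | glb F => simp [tm, sz, dpt]
  | seq c d hc hd =>
    have h1 := hc h.1
    have h2 := hd h.2
    have e1 : X ^ dpt c ≤ X ^ (dpt c + dpt d) := Nat.pow_le_pow_right hX (Nat.le_add_right _ _)
    have e2 : X ^ dpt d ≤ X ^ (dpt c + dpt d) := Nat.pow_le_pow_right hX (Nat.le_add_left _ _)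
    show tm w p t c + tm w p t d ≤ (sz c + sz d) * X ^ (dpt c + dpt d) * (t + 2)
    calc tm w p t c + tm w p t d
        ≤ sz c * X ^ dpt c * (t + 2) + sz d * X ^ dpt d * (t + 2) := Nat.add_le_add h1 h2
      _ ≤ sz c * X ^ (dpt c + dpt d) * (t + 2) + sz d * X ^ (dpt c + dpt d) * (t + 2) :=
          Nat.add_le_add (Nat.mul_le_mul_right _ (Nat.mul_le_mul_left _ e1))
            (Nat.mul_le_mul_right _ (Nat.mul_le_mul_left _ e2))
      _ = (sz c + sz d) * X ^ (dpt c + dpt d) * (t + 2) := by ring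
  | rep n c hc =>
    have h1 := hc h.2
    show n w p * tm w p t c ≤ sz c * X ^ (dpt c + 1) * (t + 2)
    calc n w p * tm w p t c ≤ X * (sz c * X ^ dpt c * (t + 2)) := Nat.mul_le_mul h.1 h1
      _ = sz c * X ^ (dpt c + 1) * (t + 2) := by ring
  | call i j =>
    show t + 2 ≤ 3 * X ^ 0 * (t + 2)
    rw [pow_zero]
    omega

theorem mF7 : StF7 := by
  intro α w p body X hX hb r
  set a := sz body * X ^ dpt body with ha
  have ha1 : 1 ≤ a := Nat.mul_pos (F7_sz body) (Nat.pow_pos hX)
  induction r with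
  | zero => simp [Tot]
  | succ r ih =>
    have h1 := F7_tm w p X (Tot w p body r) hX body hb
    rw [← ha] at h1
    show tm w p (Tot w p body r) body + 2 ≤ 3 * (3 * a) ^ (r + 1)
    have h2 : a * (Tot w p body r + 2) ≤ a * (3 * (3 * a) ^ r) := Nat.mul_le_mul_left _ ih
    have h3 : 1 ≤ a * (3 * a) ^ r := Nat.mul_pos ha1 (Nat.pow_pos (by omega))
    have h4 : 3 * (3 * a) ^ (r + 1) = 9 * (a * (3 * a) ^ r) := by ring
    have h5 : a * (3 * (3 * a) ^ r) = 3 * (a * (3 * a) ^ r) := by ring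
    rw [h4]
    rw [h5] at h2
    omega

end Pool.Agent.Helper82.DC
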