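import Pool.Agent.Helper82.DC.Cm

/-! Project DC (MP_26f0da_lc), module P2: pop sequences. -/

set_option autoImplicit false

namespace Pool.Agent.Helper82.DC

open Pool.Agent.Helper73.DC
open Finset
open scoped Classical

section
variable {α : Type} {cl : List α → ℕ → ℕ} {rs : List α → ℕ → ℕ → ℕ} {w : List α} {p f : ℕ → ℕ}
  {cb : ℕ → ℕ → ℕ × ℕ} {r : ℕ}

/-- One round. -/
theorem P2_step (hP1 : StP1) (hp : Prm cl rs w p) (ho : Orc p f cb) (l : ℕ → ℕ) (g : ℕ)
    (hl : ∀ i, l i < p 0) (hg : g < p 1) :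
    ∃ l', sem w p 40 cb r (popStep cl rs) (l, g) = (l', g) ∧ (∀ i, l' i < p 0) ∧
      (∀ i, i ∉ ({21, 22, 23, 24, 25, 26, 27, 28, 29, 31, 32, 33, 34} : Finset ℕ) → l' i = l i) ∧
      (⟨l' 31, l' 32, l' 33⟩ : PS) =
        pstep (p 3) (cl w) (rs w) f (l 30) ⟨l 31, l 32, l 33⟩ := by
  have h2 : p 2 ≤ p 0 := (Prm_two_lt hp).le
  have h3 : p 3 < p 0 := by have := Prm_three_lt hp; omega
  have hone : 1 < p 0 := by have := Prm_three_lt hp; omega
  set s := l 30 with hs
  set h := l 31 with hh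
  set q := l 32 with hq
  set t := l 33 with ht
  have hs0 : s < p 0 := hl 30
  have hh0 : h < p 0 := hl 31
  have hq0 : q < p 0 := hl 32
  have ht0 : t < p 0 := hl 33
  -- the walk
  set l1 := Function.update (Function.update l 21 s) 25 h with hl1
  have hb1 : ∀ i, l1 i < p 0 := upd_lt (upd_lt hl _ _ hs0) _ _ hh0
  obtain ⟨w1, w2, w3, w4, w5, w6, w7⟩ := hP1 cl rs w p f cb r g l1 hp ho hb1 hg
  have e21 : l1 21 = s := by simp [hl1, Function.update_apply]
  have e25 : l1 25 = h := by simp [hl1]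
  rw [e21, e25] at w7
  obtain ⟨l2, hl2⟩ : ∃ l2, l2 = (sem w p 40 cb r (walkP cl rs) (l1, g)).1 := ⟨_, rfl⟩
  have hrun : sem w p 40 cb r (walkP cl rs) (l1, g) = (l2, g) := Prod.ext hl2.symm w1
  rw [← hl2] at w2 w3 w7
  set fr := (walk (p 3) (cl w) (rs w) f s h).fr with hfr
  have u31 : l2 31 = h := by rw [w3 31 (by decide)]; simp [hl1, Function.update_apply, hh]
  have u32 : l2 32 = q := by rw [w3 32 (by decide)]; simp [hl1, Function.update_apply, hq]
  have u33 : l2 33 = t := by rw [w3 33 (by decide)]; simp [hl1, Function.update_apply, ht]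
  have hd3 : rs w fr q < p 3 := hp.hrs _ _
  set d := rs w fr q with hd
  have hd0 : d < p 0 := lt_trans hd3 h3
  have he2 : f d < p 0 := lt_of_lt_of_le (ho.1 d) h2
  set e := f d with he
  set v34 := if t = 0 ∧ h ≠ 0 then 1 else 0 with h34
  set v32 := if v34 = 1 then (if e ≠ 0 then e - 1 else d) else q with h32
  set v33 := if v34 = 1 ∧ e = 0 then 1 else t with h33
  set v31 := if v34 = 1 then h - 1 else h with h31
  have k34 : v34 < p 0 := by rw [h34]; split_ifs <;> omega
  have k32 : v32 < p 0 := by rw [h32]; split_ifs <;> omega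
  have k33 : v33 < p 0 := by rw [h33]; split_ifs <;> omega
  have k31 : v31 < p 0 := by rw [h31]; split_ifs <;> omega
  refine ⟨Function.update (Function.update (Function.update (Function.update
    (Function.update (Function.update l2 26 d) 27 e) 34 v34) 32 v32) 33 v33) 31 v31,
    ?_, ?_, ?_, ?_⟩
  · rw [popStep, sem_cons, sem_asg s (by simp [lo_ctx, hs]) hs0,
      sem_cons, sem_asg h (by simp [lo_ctx, Function.update_apply, hh]) hh0, sem_cons, hrun,
      sem_cons, sem_asg d (by simp [lo_ctx, w7, u32, hd]) hd0,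
      sem_cons, sem_call ho h2 hg e (by simp [he]) (by simpa using hd3),
      sem_cons, sem_asg v34 (by simp [lo_ctx, Function.update_apply, u33, u31, h34]) k34,
      sem_cons, sem_asg v32 (by simp [lo_ctx, Function.update_apply, u32, h32]) k32,
      sem_cons, sem_asg v33 (by simp [lo_ctx, Function.update_apply, u33, h33]) k33,
      sem_cons, sem_asg v31 (by simp [lo_ctx, Function.update_apply, u31, h31]) k31, sem_nil]
  · exact upd_lt (upd_lt (upd_lt (upd_lt (upd_lt (upd_lt w2 _ _ hd0) _ _ he2)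
      _ _ k34) _ _ k32) _ _ k33) _ _ k31
  · intro i hi
    simp only [Finset.mem_insert, Finset.mem_singleton, not_or] at hi
    obtain ⟨i1, i2, i3, i4, i5, i6, i7, i8, i9, i10, i11, i12, i13⟩ := hi
    have e3 : l2 i = l1 i := w3 i (by
      simp only [Finset.mem_insert, Finset.mem_singleton, not_or]
      exact ⟨i1, i2, i3, i4, i6, i7, i8, i9⟩)
    simp [Function.update_apply, i6, i7, i13, i11, i12, i10, e3, hl1, i1, i5]
  · simp only [Function.update_apply]
    norm_num
    unfold pstep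
    simp only [← hfr, ← hd, ← he]
    by_cases q1 : t = 0 ∧ h ≠ 0
    · have z34 : v34 = 1 := by rw [h34, if_pos q1]
      by_cases q2 : e = 0
      · simp [q1, q2, h31, h32, h33, z34]
      · simp [q1, q2, h31, h32, h33, z34]
    · have z34 : v34 = 0 := by rw [h34, if_neg q1]
      rw [if_neg q1]
      simp [h31, h32, h33, z34]

end

theorem mP2 : StP1 → StP2 := by
  intro hP1 α cl rs w p f cb r g l hp ho hl hg h33
  have key : ∀ n, ∃ l', (sem w p 40 cb r (popStep cl rs))^[n] (l, g) = (l', g) ∧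
      (∀ i, l' i < p 0) ∧
      (∀ i, i ∉ ({21, 22, 23, 24, 25, 26, 27, 28, 29, 31, 32, 33, 34} : Finset ℕ) → l' i = l i) ∧
      (⟨l' 31, l' 32, l' 33⟩ : PS) =
        (pstep (p 3) (cl w) (rs w) f (l 30))^[n] ⟨l 31, l 32, 0⟩ := by
    intro n
    induction n with
    | zero => exact ⟨l, rfl, hl, fun _ _ => rfl, by rw [h33]; rfl⟩
    | succ n ih =>
      obtain ⟨l1, h1, h2, h3, h4⟩ := ih
      obtain ⟨l2, k1, k2, k3, k4⟩ := P2_step (r := r) hP1 hp ho l1 g h2 hg
      refine ⟨l2, ?_, k2, fun i hi => (k3 i hi).trans (h3 i hi), ?_⟩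
      · rw [Function.iterate_succ_apply', h1, k1]
      · rw [Function.iterate_succ_apply', k4, h4, h3 30 (by decide)]
  obtain ⟨l', h1, h2, h3, h4⟩ := key (p 3)
  have hrun : sem w p 40 cb r (popP cl rs) (l, g) = (l', g) := by
    rw [popP, sem_rep]
    exact h1
  rw [hrun]
  have h6 : (⟨l' 31, l' 32, l' 33⟩ : PS) = popf (p 3) (cl w) (rs w) f (l 30) (l 31) (l 32) := h4
  exact ⟨rfl, h2, h3, congrArg PS.h h6, congrArg PS.r h6, congrArg PS.t h6⟩

end Pool.Agent.Helper82.DC
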