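import Pool.Agent.Helper73.DC.St5

/-! Project DC (MP_26f0da_lc): symbolic execution of the commands. -/

set_option autoImplicit false

namespace Pool.Agent.Helper82.DC

open Pool.Agent.Helper73.DC
open Finset
open scoped Classical

theorem lo_ctx (i r g : ℕ) (l p : ℕ → ℕ) (h : i < 40) : lo i (ctx 40 r g l p) = l i := by
  unfold lo ctx
  rw [Nat.add_comm]
  show cat 40 l p i = l i
  simp [cat, h]

theorem pa_ctx (j r g : ℕ) (l p : ℕ → ℕ) : pa j (ctx 40 r g l p) = p j := by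
  unfold pa ctx
  have : 42 + j = (40 + j) + 2 := by omega
  rw [this]
  show cat 40 l p (40 + j) = p j
  simp [cat]

theorem gl_ctx (r g : ℕ) (l p : ℕ → ℕ) : gl (ctx 40 r g l p) = g := rfl

section
variable {α : Type} {w : List α} {p : ℕ → ℕ} {cb : ℕ → ℕ → ℕ × ℕ} {r : ℕ}

theorem sem_nil (s : (ℕ → ℕ) × ℕ) : sem w p 40 cb r (sq []) s = s := rfl

theorem sem_cons (c : Cmd α) (cs : List (Cmd α)) (s : (ℕ → ℕ) × ℕ) :
    sem w p 40 cb r (sq (c :: cs)) s = sem w p 40 cb r (sq cs) (sem w p 40 cb r c s) := rfl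

theorem sem_rep (n : VF α) (c : Cmd α) (s : (ℕ → ℕ) × ℕ) :
    sem w p 40 cb r (Cmd.rep n c) s = (sem w p 40 cb r c)^[n w p] s := rfl

theorem sem_asg {i : ℕ} {F : VF α} {l : ℕ → ℕ} {g : ℕ} (v : ℕ)
    (hv : F w (ctx 40 r g l p) = v) (hlt : v < p 0) :
    sem w p 40 cb r (Cmd.asg i F) (l, g) = (Function.update l i v, g) := by
  show (Function.update l i (F w (ctx 40 r g l p) % p 0), g) = _
  rw [hv, Nat.mod_eq_of_lt hlt]

theorem sem_glb {F : VF α} {l : ℕ → ℕ} {g : ℕ} (v : ℕ)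
    (hv : F w (ctx 40 r g l p) = v) (hlt : v < p 1) :
    sem w p 40 cb r (Cmd.glb F) (l, g) = (l, v) := by
  show (l, F w (ctx 40 r g l p) % p 1) = _
  rw [hv, Nat.mod_eq_of_lt hlt]

theorem sem_call {f : ℕ → ℕ} (ho : Orc p f cb) (h2 : p 2 ≤ p 0) {i j : ℕ} {l : ℕ → ℕ} {g : ℕ}
    (hg : g < p 1) (v : ℕ) (hv : f (l i) = v) (hx : l i < p 3) :
    sem w p 40 cb r (Cmd.call i j) (l, g) = (Function.update l j v, g) := by
  show (Function.update l j ((cb (l i) g).1 % p 0), (cb (l i) g).2) = _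
  rw [ho.2 (l i) hx g hg]
  show (Function.update l j (f (l i) % p 0), g) = _
  rw [hv, Nat.mod_eq_of_lt]
  rw [← hv]
  exact lt_of_lt_of_le (ho.1 _) h2

end

theorem upd_lt {l : ℕ → ℕ} {M : ℕ} (h : ∀ i, l i < M) (j v : ℕ) (hv : v < M) :
    ∀ i, Function.update l j v i < M := by
  intro i
  rw [Function.update_apply]
  split_ifs
  · exact hv
  · exact h i

section
variable {α : Type} {cl : List α → ℕ → ℕ} {rs : List α → ℕ → ℕ → ℕ} {w : List α} {p : ℕ → ℕ}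

theorem Prm_two_pos (h : Prm cl rs w p) : 0 < p 2 := by
  have := h.hD
  omega

theorem Prm_two_lt (h : Prm cl rs w p) : p 2 < p 0 := by
  have h1 : p 2 ≤ p 2 ^ 5 := Nat.le_self_pow (by norm_num) _
  exact lt_of_le_of_lt (h1.trans h.hM0) h.hQM

theorem Prm_three_lt (h : Prm cl rs w p) : p 3 + 1 < p 0 := lt_trans h.hD (Prm_two_lt h)

end

end Pool.Agent.Helper82.DC
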